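import Pool.Agent.Lib.MP_b7b3bc_co.Tree

/-! The transition between two consecutive shells, for a centre `[-A, A]`.  The two-colouring
`Late A` is false for small integers, true for large ones, and it is compatible with every
reflection in a central integer. -/

namespace Pool.Agent.Lib.MP_b7b3bc_co

/-- The exceptional integers of the transition: a cascade of finitely many bumps, at doubled
scales and on alternating sides of zero. -/
def Bump (A : ℤ) : ℕ → ℤ → Prop
  | 0, w => ∃ y z : ℤ, |z| ≤ A ∧ Before y z ∧ 20*A ≤ y ∧ y < 22*A + 2*z ∧ w = 2*y - z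
  | (j+1), w => ∃ y z : ℤ, |z| ≤ A ∧ Before y z ∧ Bump A j y ∧ w = 3*z - 2*y

/-- The integers that belong to the outer one of the two shells. -/
def Late (A x : ℤ) : Prop := (20*A ≤ x ∨ x ≤ -(22*A)) ∧ ∀ j : ℕ, ¬ Bump A j x

theorem bump_bounds {A : ℤ} : ∀ (j : ℕ) (w : ℤ), Bump A j w →
    36*(2^j*A) + 3*A ≤ (-1)^j*w ∧ (-1)^j*w ≤ 52*(2^j*A) - 3*A := by
  intro j
  induction j with
  | zero =>
    rintro w ⟨y, z, hz, _, h1, h2, rfl⟩
    have hz' := abs_le.1 hz
    simp only [pow_zero, one_mul]
    constructor <;> linarith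
  | succ j ih =>
    rintro w ⟨y, z, hz, _, hy, rfl⟩
    obtain ⟨h1, h2⟩ := ih y hy
    have hz' := abs_le.1 hz
    have e : (-1:ℤ)^(j+1)*(3*z - 2*y) = 2*((-1)^j*y) - 3*((-1)^j*z) := by ring
    have e2 : (2:ℤ)^(j+1)*A = 2*(2^j*A) := by ring
    rw [e, e2]
    rcases neg_one_pow_eq_or ℤ j with hj | hj
    · rw [hj] at h1 h2 ⊢
      constructor <;> linarith
    · rw [hj] at h1 h2 ⊢
      constructor <;> linarith

theorem two_pow_mul_mono {A : ℤ} (hA : 0 < A) {i j : ℕ} (h : i ≤ j) :
    (2:ℤ)^i*A ≤ 2^j*A :=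
  mul_le_mul_of_nonneg_right (pow_le_pow_right₀ (by norm_num) h) hA.le

theorem le_two_pow_mul {A : ℤ} (hA : 0 < A) (i : ℕ) : A ≤ (2:ℤ)^i*A := by
  have := two_pow_mul_mono hA (Nat.zero_le i)
  simpa using this

/-- No bump in the window on the side of the `j`-th bump at the doubled scale. -/
theorem no_bump_same {A w : ℤ} (hA : 0 < A) (j : ℕ)
    (h1 : 72*(2^j*A) + 5*A ≤ (-1)^j*w) (h2 : (-1)^j*w ≤ 104*(2^j*A) - 5*A) (i : ℕ) :
    ¬ Bump A i w := by
  intro hb
  obtain ⟨g1, g2⟩ := bump_bounds i w hb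
  have hPi := le_two_pow_mul hA i
  have hPj := le_two_pow_mul hA j
  have key : (-1:ℤ)^i = (-1)^j ∨ (-1:ℤ)^i = -(-1)^j := by
    rcases neg_one_pow_eq_or ℤ i with hi | hi <;> rcases neg_one_pow_eq_or ℤ j with hj | hj <;>
      rw [hi, hj] <;> simp
  rcases key with hk | hk
  · rw [hk] at g1 g2
    rcases Nat.lt_or_ge j i with hij | hij
    · rcases Nat.lt_or_ge (j+1) i with hij' | hij'
      · have := two_pow_mul_mono hA (show j+2 ≤ i from hij')
        have e : (2:ℤ)^(j+2)*A = 4*(2^j*A) := by ring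
        linarith
      · have hi : i = j+1 := by omega
        rw [hi, pow_succ] at hk
        have : (-1:ℤ)^j = 0 := by linarith
        exact absurd this (pow_ne_zero _ (by norm_num))
    · have := two_pow_mul_mono hA hij
      linarith
  · rw [hk] at g1
    have : -(-1:ℤ)^j*w = -((-1)^j*w) := by ring
    linarith

/-- No bump in the window opposite to the `j`-th bump. -/
theorem no_bump_opposite {A w : ℤ} (hA : 0 < A) (j : ℕ)
    (h1 : 36*(2^j*A) + A ≤ -((-1)^j*w)) (h2 : -((-1)^j*w) ≤ 52*(2^j*A) - A) (i : ℕ) :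
    ¬ Bump A i w := by
  intro hb
  obtain ⟨g1, g2⟩ := bump_bounds i w hb
  have hPi := le_two_pow_mul hA i
  have hPj := le_two_pow_mul hA j
  have key : (-1:ℤ)^i = (-1)^j ∨ (-1:ℤ)^i = -(-1)^j := by
    rcases neg_one_pow_eq_or ℤ i with hi | hi <;> rcases neg_one_pow_eq_or ℤ j with hj | hj <;>
      rw [hi, hj] <;> simp
  rcases key with hk | hk
  · rw [hk] at g1
    linarith
  · rw [hk] at g1 g2
    have e1 : -(-1:ℤ)^j*w = -((-1)^j*w) := by ring
    rw [e1] at g1 g2
    rcases lt_trichotomy i j with hij | hij | hij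
    · have := two_pow_mul_mono hA (show i+1 ≤ j from hij)
      have e : (2:ℤ)^(i+1)*A = 2*(2^i*A) := by ring
      linarith
    · rw [hij] at hk
      have : (-1:ℤ)^j = 0 := by linarith
      exact absurd this (pow_ne_zero _ (by norm_num))
    · have := two_pow_mul_mono hA (show j+1 ≤ i from hij)
      have e : (2:ℤ)^(j+1)*A = 2*(2^j*A) := by ring
      linarith

/-- No bump among the moderately small negative integers. -/
theorem no_bump_neg {A w : ℤ} (hA : 0 < A) (h1 : -(52*A) ≤ w) (h2 : w < 0) (i : ℕ) :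
    ¬ Bump A i w := by
  intro hb
  obtain ⟨g1, g2⟩ := bump_bounds i w hb
  have hPi := le_two_pow_mul hA i
  rcases neg_one_pow_eq_or ℤ i with hi | hi
  · rw [hi] at g1
    linarith
  · have hi1 : 1 ≤ i := by
      rcases Nat.eq_zero_or_pos i with h0 | h0
      · rw [h0] at hi; norm_num at hi
      · exact h0
    have := two_pow_mul_mono hA hi1
    rw [hi] at g1
    have e : (2:ℤ)^1*A = 2*A := by ring
    linarith

theorem not_late_small {A x : ℤ} (hA : 0 < A) (h : |x| ≤ 7*A) : ¬ Late A x := by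
  rintro ⟨h1 | h1, _⟩
  · have := (abs_le.1 h).2
    linarith
  · have := (abs_le.1 h).1
    linarith

/-- The colouring is compatible with the reflection in every central integer. -/
theorem late_reflect {A y z : ℤ} (hA : 0 < A) (hz : |z| ≤ A) (h : Before y z) :
    (Late A y → ¬ Late A (2*z - y) → ¬ Late A (2*y - z)) ∧
    (¬ Late A y → Late A (2*z - y) → Late A (2*y - z)) := by
  have hz' := abs_le.1 hz
  constructor
  · intro hy hu hw
    unfold Late at hu
    rw [not_and_or] at hu
    rcases hu with hu | hu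
    · rw [not_or] at hu
      push Not at hu
      obtain ⟨hu1, hu2⟩ := hu
      rcases hy.1 with hy1 | hy1
      · refine hw.2 0 ⟨y, z, hz, h, hy1, ?_, rfl⟩
        linarith
      · linarith
    · push Not at hu
      obtain ⟨j, hj⟩ := hu
      refine hw.2 (j+1) ⟨2*z - y, z, hz, before_reflect_left h, hj, ?_⟩
      ring
  · intro hy hu
    unfold Late at hy
    rw [not_and_or] at hy
    rcases hy with hy | hy
    · rw [not_or] at hy
      push Not at hy
      obtain ⟨hy1, hy2⟩ := hy
      rcases hu.1 with hu1 | hu1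
      · refine ⟨Or.inr (by linarith), fun i => no_bump_neg hA ?_ ?_ i⟩
        · linarith
        · linarith
      · linarith
    · push Not at hy
      obtain ⟨j, hj⟩ := hy
      obtain ⟨g1, g2⟩ := bump_bounds j y hj
      have hPj := le_two_pow_mul hA j
      have e1 : (-1:ℤ)^j*(2*y - z) = 2*((-1)^j*y) - (-1)^j*z := by ring
      have hzz : -A ≤ (-1:ℤ)^j*z ∧ (-1:ℤ)^j*z ≤ A := by
        rcases neg_one_pow_eq_or ℤ j with hj' | hj' <;> rw [hj'] <;> constructor <;> linarith
      refine ⟨?_, no_bump_same hA j ?_ ?_⟩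
      · rcases neg_one_pow_eq_or ℤ j with hj' | hj'
        · rw [hj'] at g1
          left; linarith
        · rw [hj'] at g1
          right; linarith
      · rw [e1]; linarith
      · rw [e1]; linarith

theorem bump_rank {A : ℤ} {N : ℕ} (hN : 2*A < 2^N) : ∀ (j : ℕ) (w : ℤ), Bump A j w →
    j ≤ rank w N := by
  intro j
  induction j with
  | zero => intro w _; exact Nat.zero_le _
  | succ j ih =>
    rintro w ⟨y, z, hz, h, hy, rfl⟩
    have h1 := ih y hy
    have h2 := rank_step hz hN h
    omega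

/-- Far away everything is late. -/
theorem exists_late_bound {A : ℤ} (hA : 0 < A) :
    ∃ b : ℤ, 7*A < b ∧ ∀ x : ℤ, b < |x| → Late A x := by
  obtain ⟨N, hN⟩ : ∃ N : ℕ, 2*A < 2^N := by
    refine ⟨(2*A).toNat, ?_⟩
    have h1 : ((2*A).toNat : ℤ) < 2^((2*A).toNat) := by
      exact_mod_cast Nat.lt_two_pow_self
    have h2 := Int.self_le_toNat (2*A)
    linarith
  refine ⟨52*(2^(2^N)*A) + 22*A, ?_, ?_⟩
  · have := le_two_pow_mul hA (2^N)
    linarith
  · intro x hx
    have hP := le_two_pow_mul hA (2^N)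
    refine ⟨?_, ?_⟩
    · rcases le_total 0 x with h0 | h0
      · rw [abs_of_nonneg h0] at hx
        left; linarith
      · rw [abs_of_nonpos h0] at hx
        right; linarith
    · intro j hj
      have h1 := bump_rank hN j x hj
      have h2 := rank_lt_pow x N
      have h3 := two_pow_mul_mono hA (show j ≤ 2^N by omega)
      obtain ⟨_, g2⟩ := bump_bounds j x hj
      have h4 : |x| = |(-1)^j*x| := by
        rw [abs_mul, abs_pow]; simp
      have h5 : 0 ≤ (-1)^j*x := by
        have := (bump_bounds j x hj).1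
        have := le_two_pow_mul hA j
        linarith
      rw [h4, abs_of_nonneg h5] at hx
      linarith

end Pool.Agent.Lib.MP_b7b3bc_co
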