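import Pool.Agent.Lib.MP_b7b3bc_co.Colour

/-! The doubly infinite permutation: shells placed alternately on the right and on the left. -/

namespace Pool.Agent.Lib.MP_b7b3bc_co

/-- A strict total order on a nonempty type with finite intervals and without endpoints is
enumerated increasingly by the integers. -/
theorem exists_enumeration {α : Type} [Nonempty α] (r : α → α → Prop)
    (hirr : ∀ a, ¬ r a a) (htr : ∀ a b c, r a b → r b c → r a c)
    (htri : ∀ a b, a ≠ b → r a b ∨ r b a)
    (hfin : ∀ a b, {x | r a x ∧ r x b}.Finite)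
    (hmax : ∀ a, ∃ b, r a b) (hmin : ∀ a, ∃ b, r b a) :
    ∃ f : ℤ → α, Function.Bijective f ∧ ∀ i j, i < j → r (f i) (f j) := by
  classical
  have : IsStrictTotalOrder α r :=
    { trichotomous := fun a b h1 h2 => by
        by_contra h
        rcases htri a b h with h | h
        · exact h1 h
        · exact h2 h
      irrefl := hirr
      trans := htr }
  let _ : LinearOrder α := linearOrderOfSTO r
  have hlt : ∀ a b : α, a < b ↔ r a b := fun a b => Iff.rfl
  let _ : LocallyFiniteOrder α := LocallyFiniteOrder.ofFiniteIcc (by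
    intro a b
    have h1 : Set.Icc a b ⊆ {x | r a x ∧ r x b} ∪ {a, b} := by
      intro x hx
      rcases eq_or_lt_of_le hx.1 with h | h
      · right; simp [h]
      · rcases eq_or_lt_of_le hx.2 with h' | h'
        · right; simp [h']
        · left; exact ⟨(hlt _ _).1 h, (hlt _ _).1 h'⟩
    exact ((hfin a b).union (Set.toFinite _)).subset h1)
  have : NoMaxOrder α := ⟨fun a => by
    obtain ⟨b, hb⟩ := hmax a
    exact ⟨b, (hlt _ _).2 hb⟩⟩
  have : NoMinOrder α := ⟨fun a => by
    obtain ⟨b, hb⟩ := hmin a
    exact ⟨b, (hlt _ _).2 hb⟩⟩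
  let _ := LinearLocallyFiniteOrder.succOrder α
  let _ := LinearLocallyFiniteOrder.predOrder α
  let e : α ≃o ℤ := orderIsoIntOfLinearSuccPredArch
  refine ⟨e.symm, e.symm.bijective, ?_⟩
  intro i j hij
  exact (hlt _ _).1 (e.symm.lt_iff_lt.2 hij)

/-- Radii of the transitions. -/
structure Radii (b : ℕ → ℤ) : Prop where
  pos : ∀ k, 0 < b k
  step : ∀ k, 7 * b k < b (k+1)
  late : ∀ k x, b (k+1) < |x| → Late (b k) x

theorem exists_radii : ∃ b : ℕ → ℤ, Radii b := by
  classical
  let F : ℕ → {A : ℤ // 0 < A} := fun n => Nat.rec ⟨1, one_pos⟩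
    (fun _ A => ⟨Classical.choose (exists_late_bound A.2), by
      have h := (Classical.choose_spec (exists_late_bound A.2)).1
      have h2 := A.2
      linarith⟩) n
  refine ⟨fun n => (F n).1, fun k => (F k).2, fun k => ?_, fun k x hx => ?_⟩
  · exact (Classical.choose_spec (exists_late_bound (F k).2)).1
  · exact (Classical.choose_spec (exists_late_bound (F k).2)).2 x hx

theorem Radii.mono {b : ℕ → ℤ} (hb : Radii b) {m n : ℕ} (h : m ≤ n) : b m ≤ b n := by
  induction h with
  | refl => exact le_rfl
  | step _ ih =>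
    rename_i n _
    have h1 := hb.step n
    have h2 := hb.pos n
    linarith

theorem Radii.unbounded {b : ℕ → ℤ} (hb : Radii b) (n : ℕ) : (n:ℤ) < b n := by
  induction n with
  | zero => exact_mod_cast hb.pos 0
  | succ n ih =>
    have h1 := hb.step n
    have h2 := hb.pos n
    push_cast
    linarith

/-- What we need to know about the shell number `g x` of an integer `x`. -/
structure Gen (b : ℕ → ℤ) (g : ℤ → ℕ) : Prop where
  lower : ∀ m x, b m < |x| → m ≤ g x
  upper : ∀ m x, m + 1 ≤ g x → 7 * b m < |x|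
  colour : ∀ m x, b m < |x| → (m + 1 ≤ g x ↔ Late (b m) x)

theorem exists_gen {b : ℕ → ℤ} (hb : Radii b) : ∃ g : ℤ → ℕ, Gen b g := by
  classical
  have key : ∀ x : ℤ, ∃ n : ℕ, (∀ m, b m < |x| → m ≤ n) ∧ (∀ m, m + 1 ≤ n → 7 * b m < |x|) ∧
      (∀ m, b m < |x| → (m + 1 ≤ n ↔ Late (b m) x)) := by
    intro x
    have hex : ∃ k : ℕ, |x| ≤ b k := by
      refine ⟨|x|.toNat, ?_⟩
      have h1 := hb.unbounded |x|.toNat
      have h2 := Int.self_le_toNat |x|
      linarith
    obtain ⟨k, hk, hmin⟩ : ∃ k, |x| ≤ b k ∧ ∀ m, m < k → b m < |x| := by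
      refine ⟨Nat.find hex, Nat.find_spec hex, fun m hm => ?_⟩
      have := Nat.find_min hex hm
      push Not at this
      exact this
    have hlt : ∀ m, b m < |x| → m < k := by
      intro m hm
      by_contra h
      push Not at h
      have := hb.mono h
      linarith
    rcases Nat.eq_zero_or_pos k with h0 | hpos
    · subst h0
      refine ⟨0, ?_, ?_, ?_⟩
      · intro m hm
        exact absurd (hlt m hm) (Nat.not_lt_zero m)
      · intro m hm; omega
      · intro m hm
        exact absurd (hlt m hm) (Nat.not_lt_zero m)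
    · obtain ⟨n, rfl⟩ : ∃ n, k = n + 1 := ⟨k - 1, by omega⟩
      have hn : b n < |x| := hmin n (Nat.lt_succ_self n)
      by_cases hL : Late (b n) x
      · refine ⟨n+1, ?_, ?_, ?_⟩
        · intro m hm
          have := hlt m hm
          omega
        · intro m hm
          by_contra hc
          push Not at hc
          have h1 : m = n := by
            by_contra hne
            have h2 : m + 1 ≤ n := by omega
            have h3 := hb.mono h2
            have h4 := hb.step m
            linarith
          subst h1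
          exact not_late_small (hb.pos m) hc hL
        · intro m hm
          have h1 := hlt m hm
          constructor
          · intro _
            rcases Nat.lt_or_ge m n with h2 | h2
            · exact hb.late m x (lt_of_le_of_lt (hb.mono (show m + 1 ≤ n from h2)) hn)
            · have : m = n := by omega
              subst this; exact hL
          · intro _; omega
      · refine ⟨n, ?_, ?_, ?_⟩
        · intro m hm
          have := hlt m hm
          omega
        · intro m hm
          have h3 := hb.mono hm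
          have h4 := hb.step m
          linarith
        · intro m hm
          have h1 := hlt m hm
          constructor
          · intro h2
            exact hb.late m x (lt_of_le_of_lt (hb.mono h2) hn)
          · intro h2
            by_contra hc
            have : m = n := by omega
            subst this
            exact hL h2
  choose g hg using key
  exact ⟨g, fun m x => (hg x).1 m, fun m x => (hg x).2.1 m, fun m x => (hg x).2.2 m⟩

/-- Outward order: first by shell number, inside a shell by the tree order. -/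
def Out (g : ℤ → ℕ) (x y : ℤ) : Prop := g x < g y ∨ (g x = g y ∧ Before x y)

/-- The order of the doubly infinite permutation: shells of odd number are placed on the left,
shells of even number on the right. -/
def Lt (g : ℤ → ℕ) (x y : ℤ) : Prop :=
  (Odd (g x) ∧ Even (g y)) ∨ (Even (g x) ∧ Even (g y) ∧ Out g x y) ∨
    (Odd (g x) ∧ Odd (g y) ∧ Out g y x)

theorem out_irrefl (g : ℤ → ℕ) (x : ℤ) : ¬ Out g x x := by
  rintro (h | ⟨_, h⟩)
  · exact lt_irrefl _ h
  · exact before_irrefl x h

theorem out_trans {g : ℤ → ℕ} {x y z : ℤ} (h1 : Out g x y) (h2 : Out g y z) : Out g x z := by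
  rcases h1 with h1 | ⟨h1, h1'⟩ <;> rcases h2 with h2 | ⟨h2, h2'⟩
  · left; exact h1.trans h2
  · left; exact h2 ▸ h1
  · left; exact h1 ▸ h2
  · right; exact ⟨h1.trans h2, before_trans h1' h2'⟩

theorem out_total (g : ℤ → ℕ) {x y : ℤ} (h : x ≠ y) : Out g x y ∨ Out g y x := by
  rcases lt_trichotomy (g x) (g y) with h1 | h1 | h1
  · left; left; exact h1
  · rcases before_trichotomy h with h2 | h2
    · left; right; exact ⟨h1, h2⟩
    · right; right; exact ⟨h1.symm, h2⟩
  · right; left; exact h1

theorem lt_irrefl' (g : ℤ → ℕ) (x : ℤ) : ¬ Lt g x x := by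
  rintro (⟨h1, h2⟩ | ⟨_, _, h⟩ | ⟨_, _, h⟩)
  · exact (Nat.not_even_iff_odd.2 h1) h2
  · exact out_irrefl g x h
  · exact out_irrefl g x h

theorem lt_trans' (g : ℤ → ℕ) (x y z : ℤ) (h1 : Lt g x y) (h2 : Lt g y z) : Lt g x z := by
  unfold Lt at *
  rcases h1 with ⟨a1, a2⟩ | ⟨a1, a2, a3⟩ | ⟨a1, a2, a3⟩ <;>
    rcases h2 with ⟨b1, b2⟩ | ⟨b1, b2, b3⟩ | ⟨b1, b2, b3⟩
  · exact Or.inl ⟨a1, b2⟩
  · exact Or.inl ⟨a1, b2⟩
  · exact absurd a2 (Nat.not_even_iff_odd.2 b1)
  · exact absurd a2 (Nat.not_even_iff_odd.2 b1)
  · exact Or.inr (Or.inl ⟨a1, b2, out_trans a3 b3⟩)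
  · exact absurd a2 (Nat.not_even_iff_odd.2 b1)
  · exact Or.inl ⟨a1, b2⟩
  · exact absurd b1 (Nat.not_even_iff_odd.2 a2)
  · exact Or.inr (Or.inr ⟨a1, b2, out_trans b3 a3⟩)

theorem lt_total' (g : ℤ → ℕ) (x y : ℤ) (h : x ≠ y) : Lt g x y ∨ Lt g y x := by
  unfold Lt
  rcases Nat.even_or_odd (g x) with hx | hx <;> rcases Nat.even_or_odd (g y) with hy | hy
  · rcases out_total g h with h1 | h1
    · exact Or.inl (Or.inr (Or.inl ⟨hx, hy, h1⟩))
    · exact Or.inr (Or.inr (Or.inl ⟨hy, hx, h1⟩))
  · exact Or.inr (Or.inl ⟨hy, hx⟩)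
  · exact Or.inl (Or.inl ⟨hx, hy⟩)
  · rcases out_total g h with h1 | h1
    · exact Or.inr (Or.inr (Or.inr ⟨hy, hx, h1⟩))
    · exact Or.inl (Or.inr (Or.inr ⟨hx, hy, h1⟩))

section main

variable {b : ℕ → ℤ} {g : ℤ → ℕ}

theorem gen_le_finite (hg : Gen b g) (n : ℕ) : {x : ℤ | g x ≤ n}.Finite := by
  refine (Set.finite_Icc (-(b (n+1))) (b (n+1))).subset ?_
  intro x hx
  have h : |x| ≤ b (n+1) := by
    by_contra hc
    push Not at hc
    have := hg.lower (n+1) x hc
    have hx' : g x ≤ n := hx
    omega
  exact abs_le.1 h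

theorem lt_interval_finite (hg : Gen b g) (x y : ℤ) : {t | Lt g x t ∧ Lt g t y}.Finite := by
  refine (gen_le_finite hg (max (g x) (g y))).subset ?_
  rintro t ⟨h1, h2⟩
  have hout : ∀ {u v : ℤ}, Out g u v → g u ≤ g v := by
    rintro u v (h | ⟨h, _⟩)
    · exact h.le
    · exact h.le
  show g t ≤ max (g x) (g y)
  rcases Nat.even_or_odd (g t) with ht | ht
  · rcases h2 with ⟨a, _⟩ | ⟨_, _, a⟩ | ⟨a, _, _⟩
    · exact absurd ht (Nat.not_even_iff_odd.2 a)
    · exact le_trans (hout a) (le_max_right _ _)
    · exact absurd ht (Nat.not_even_iff_odd.2 a)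
  · rcases h1 with ⟨_, a⟩ | ⟨_, a, _⟩ | ⟨_, _, a⟩
    · exact absurd a (Nat.not_even_iff_odd.2 ht)
    · exact absurd a (Nat.not_even_iff_odd.2 ht)
    · exact le_trans (hout a) (le_max_left _ _)

/-- Every shell is nonempty. -/
theorem gen_surj (hb : Radii b) (hg : Gen b g) (n : ℕ) : ∃ x, g x = n := by
  have hp := hb.pos n
  refine ⟨7 * b n, ?_⟩
  have habs : |7 * b n| = 7 * b n := abs_of_pos (by linarith)
  have h1 : n ≤ g (7 * b n) := hg.lower n _ (by rw [habs]; linarith)
  have h2 : ¬ (n + 1 ≤ g (7 * b n)) := by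
    intro h
    have := hg.upper n _ h
    rw [habs] at this
    exact lt_irrefl _ this
  omega

theorem lt_no_max (hb : Radii b) (hg : Gen b g) (x : ℤ) : ∃ y, Lt g x y := by
  obtain ⟨y, hy⟩ := gen_surj hb hg (2 * (g x + 1))
  refine ⟨y, ?_⟩
  have he : Even (g y) := by rw [hy]; exact even_two_mul _
  rcases Nat.even_or_odd (g x) with hx | hx
  · refine Or.inr (Or.inl ⟨hx, he, Or.inl ?_⟩)
    omega
  · exact Or.inl ⟨hx, he⟩

theorem lt_no_min (hb : Radii b) (hg : Gen b g) (x : ℤ) : ∃ y, Lt g y x := by
  obtain ⟨y, hy⟩ := gen_surj hb hg (2 * (g x + 1) + 1)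
  refine ⟨y, ?_⟩
  have he : Odd (g y) := by rw [hy]; exact odd_two_mul_add_one _
  rcases Nat.even_or_odd (g x) with hx | hx
  · exact Or.inl ⟨he, hx⟩
  · refine Or.inr (Or.inr ⟨he, hx, Or.inl ?_⟩)
    omega

/-- Three terms of a progression in one shell are not monotone in the tree order. -/
theorem no_three {x d : ℤ} (h1 : Before x (x + d)) (h2 : Before (x + d) (x + 2*d)) : False := by
  have h3 := before_reflect_right h2
  have e : 2 * (x + d) - (x + 2*d) = x := by ring
  rw [e] at h3
  exact before_asymm h1 h3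

theorem no_three' {x d : ℤ} (h1 : Before (x + d) x) (h2 : Before (x + 2*d) (x + d)) : False := by
  have h3 := before_reflect_right h1
  have e : 2 * (x + d) - x = x + 2*d := by ring
  rw [e] at h3
  exact before_asymm h2 h3

/-- The heart of the argument, for a relation `R` that reads either from left to right or from
right to left, so that the shell `m + 1` comes last and the shell `m` first. -/
theorem core (hb : Radii b) (hg : Gen b g) {m : ℕ} {R : ℤ → ℤ → Prop}
    (R1 : ∀ u v, g u = m + 1 → g v = m + 1 → R u v → Before u v)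
    (R2 : ∀ u v, g u = m → g v = m → R u v → Before v u)
    (R3 : ∀ u v, g u = m + 1 → g v ≤ m → ¬ R u v)
    (R4 : ∀ u v, g u < m → g v = m → ¬ R u v)
    {x d : ℤ}
    (h0 : g x ≤ m + 1) (h1 : g (x + d) ≤ m + 1) (h2 : g (x + 2*d) ≤ m + 1)
    (h3 : g (x + 3*d) ≤ m + 1)
    (hmax : g x = m + 1 ∨ g (x + d) = m + 1 ∨ g (x + 2*d) = m + 1 ∨ g (x + 3*d) = m + 1)
    (r1 : R x (x + d)) (r2 : R (x + d) (x + 2*d)) (r3 : R (x + 2*d) (x + 3*d)) : False := by
  have hA := hb.pos m
  have next : ∀ {u v : ℤ}, g v ≤ m + 1 → R u v → g u = m + 1 → g v = m + 1 := by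
    intro u v hv huv hu
    by_contra hc
    exact R3 u v hu (by omega) huv
  have g3 : g (x + 3*d) = m + 1 := by
    rcases hmax with h | h | h | h
    · exact next h3 r3 (next h2 r2 (next h1 r1 h))
    · exact next h3 r3 (next h2 r2 h)
    · exact next h3 r3 h
    · exact h
  have big3 : 7 * b m < |x + 3*d| := hg.upper m _ g3.ge
  have small : ∀ {u : ℤ}, g u < m → |u| ≤ b m := by
    intro u hu
    by_contra hc
    push Not at hc
    have := hg.lower m u hc
    omega
  have prevL : ∀ {u v : ℤ}, g u ≤ m + 1 → R u v → g v = m → g u = m := by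
    intro u v hu huv hv
    by_contra hc
    rcases Nat.lt_or_ge (g u) m with h | h
    · exact R4 u v h hv huv
    · exact R3 u v (by omega) hv.le huv
  rcases lt_trichotomy (g (x + 2*d)) m with c2 | c2 | c2
  · -- the third term is central
    have s2 := small c2
    have s2' := abs_le.1 s2
    have c1 : g (x + d) = m := by
      by_contra hc
      rcases Nat.lt_or_ge (g (x + d)) m with h | h
      · have s1' := abs_le.1 (small h)
        have : |x + 3*d| ≤ 7 * b m := abs_le.2 ⟨by linarith, by linarith⟩
        linarith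
      · exact R3 _ _ (by omega) c2.le r2
    have c0 : g x = m := prevL h0 r1 c1
    have hB : Before (x + d) x := R2 _ _ c0 c1 r1
    have hB' : Before (x + d) (x + 2*d) := by
      have := before_reflect_right hB
      have e : 2 * (x + d) - x = x + 2*d := by ring
      rwa [e] at this
    have b1 : b m < |x + d| := by
      by_contra hc
      push Not at hc
      have s1' := abs_le.1 hc
      have : |x + 3*d| ≤ 7 * b m := abs_le.2 ⟨by linarith, by linarith⟩
      linarith
    have b0 : b m < |x| := by
      by_contra hc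
      push Not at hc
      have s1' := abs_le.1 hc
      have : |x + 3*d| ≤ 7 * b m := abs_le.2 ⟨by linarith, by linarith⟩
      linarith
    have n1 : ¬ Late (b m) (x + d) := fun h => by
      have := (hg.colour m _ b1).2 h
      omega
    have n0 : ¬ Late (b m) x := fun h => by
      have := (hg.colour m _ b0).2 h
      omega
    have l3 : Late (b m) (x + 3*d) := (hg.colour m _ (by linarith)).1 g3.ge
    have key := (late_reflect hA s2 hB').2 n1
    have e1 : 2 * (x + 2*d) - (x + d) = x + 3*d := by ring
    have e2 : 2 * (x + d) - (x + 2*d) = x := by ring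
    rw [e1, e2] at key
    exact n0 (key l3)
  · -- the third term is in the shell `m`
    have c1 : g (x + d) = m := prevL h1 r2 c2
    have c0 : g x = m := prevL h0 r1 c1
    exact no_three' (R2 _ _ c0 c1 r1) (R2 _ _ c1 c2 r2)
  · -- the third term is in the shell `m + 1`
    have c2' : g (x + 2*d) = m + 1 := by omega
    have hB3 : Before (x + 2*d) (x + 3*d) := R1 _ _ c2' g3 r3
    have hB3' : Before (x + 2*d) (x + d) := by
      have := before_reflect_right hB3
      have e : 2 * (x + 2*d) - (x + 3*d) = x + d := by ring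
      rwa [e] at this
    rcases lt_trichotomy (g (x + d)) m with c1 | c1 | c1
    · -- the second term is central
      have s1 := small c1
      have s1' := abs_le.1 s1
      have c0 : g x = m := by
        by_contra hc
        rcases Nat.lt_or_ge (g x) m with h | h
        · have s0' := abs_le.1 (small h)
          have : |x + 3*d| ≤ 7 * b m := abs_le.2 ⟨by linarith, by linarith⟩
          linarith
        · exact R3 _ _ (by omega) c1.le r1
      have b0 : b m < |x| := by
        by_contra hc
        push Not at hc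
        have s0' := abs_le.1 hc
        have : |x + 3*d| ≤ 7 * b m := abs_le.2 ⟨by linarith, by linarith⟩
        linarith
      have n0 : ¬ Late (b m) x := fun h => by
        have := (hg.colour m _ b0).2 h
        omega
      have big2 : 7 * b m < |x + 2*d| := hg.upper m _ c2'.ge
      have l2 : Late (b m) (x + 2*d) := (hg.colour m _ (by linarith)).1 c2'.ge
      have l3 : Late (b m) (x + 3*d) := (hg.colour m _ (by linarith)).1 g3.ge
      have key := (late_reflect hA s1 hB3').1 l2
      have e1 : 2 * (x + d) - (x + 2*d) = x := by ring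
      have e2 : 2 * (x + 2*d) - (x + d) = x + 3*d := by ring
      rw [e1, e2] at key
      exact key n0 l3
    · -- the second term is in the shell `m`
      have c0 : g x = m := prevL h0 r1 c1
      have hB : Before (x + d) x := R2 _ _ c0 c1 r1
      have hB' : Before (x + d) (x + 2*d) := by
        have := before_reflect_right hB
        have e : 2 * (x + d) - x = x + 2*d := by ring
        rwa [e] at this
      exact before_asymm hB' hB3'
    · -- the second term is in the shell `m + 1`
      have c1' : g (x + d) = m + 1 := by omega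
      exact before_asymm (R1 _ _ c1' c2' r2) hB3'

/-- The order contains no monotone progression of length four. -/
theorem no_four (hb : Radii b) (hg : Gen b g) {x d : ℤ}
    (r1 : Lt g x (x + d)) (r2 : Lt g (x + d) (x + 2*d)) (r3 : Lt g (x + 2*d) (x + 3*d)) :
    False := by
  obtain ⟨K, k0, k1, k2, k3, hK⟩ : ∃ K, g x ≤ K ∧ g (x + d) ≤ K ∧ g (x + 2*d) ≤ K ∧
      g (x + 3*d) ≤ K ∧
      (g x = K ∨ g (x + d) = K ∨ g (x + 2*d) = K ∨ g (x + 3*d) = K) := by
    refine ⟨max (max (g x) (g (x + d))) (max (g (x + 2*d)) (g (x + 3*d))), ?_, ?_, ?_, ?_, ?_⟩ <;>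
      omega
  have before_of : ∀ {u v : ℤ}, g u = g v → Out g u v → Before u v := by
    rintro u v h (h' | ⟨_, h'⟩)
    · omega
    · exact h'
  rcases Nat.eq_zero_or_pos K with h0 | hpos
  · subst h0
    have e1 : g (x + d) = 0 := by omega
    have e2 : g (x + 2*d) = 0 := by omega
    have e3 : g (x + 3*d) = 0 := by omega
    have ex : ∀ {u v : ℤ}, g u = 0 → g v = 0 → Lt g u v → Before u v := by
      intro u v hu hv h
      rcases h with ⟨a, _⟩ | ⟨_, _, a⟩ | ⟨a, _, _⟩
      · rw [hu] at a; exact absurd a (by decide)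
      · exact before_of (hu.trans hv.symm) a
      · rw [hu] at a; exact absurd a (by decide)
    have hB2 := ex e1 e2 r2
    have hB3 := ex e2 e3 r3
    have := before_reflect_right hB3
    have e : 2 * (x + 2*d) - (x + 3*d) = x + d := by ring
    rw [e] at this
    exact before_asymm hB2 this
  · obtain ⟨m, rfl⟩ : ∃ m, K = m + 1 := ⟨K - 1, by omega⟩
    rcases Nat.even_or_odd (m + 1) with hm | hm
    · have hm' : Odd m := by
        rcases Nat.even_or_odd m with h | h
        · exact absurd hm (Nat.not_even_iff_odd.2 h.add_one)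
        · exact h
      refine core hb hg (R := Lt g) ?_ ?_ ?_ ?_ k0 k1 k2 k3 hK r1 r2 r3
      · intro u v hu hv h
        rcases h with ⟨a, _⟩ | ⟨_, _, a⟩ | ⟨a, _, _⟩
        · rw [hu] at a; exact absurd hm (Nat.not_even_iff_odd.2 a)
        · exact before_of (hu.trans hv.symm) a
        · rw [hu] at a; exact absurd hm (Nat.not_even_iff_odd.2 a)
      · intro u v hu hv h
        rcases h with ⟨_, a⟩ | ⟨a, _, _⟩ | ⟨_, _, a⟩
        · rw [hv] at a; exact absurd a (Nat.not_even_iff_odd.2 hm')
        · rw [hu] at a; exact absurd a (Nat.not_even_iff_odd.2 hm')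
        · exact before_of (hv.trans hu.symm) a
      · intro u v hu hv h
        rcases h with ⟨a, _⟩ | ⟨_, _, a⟩ | ⟨a, _, _⟩
        · rw [hu] at a; exact absurd hm (Nat.not_even_iff_odd.2 a)
        · rcases a with a | ⟨a, _⟩ <;> omega
        · rw [hu] at a; exact absurd hm (Nat.not_even_iff_odd.2 a)
      · intro u v hu hv h
        rcases h with ⟨_, a⟩ | ⟨_, a, _⟩ | ⟨_, _, a⟩
        · rw [hv] at a; exact absurd a (Nat.not_even_iff_odd.2 hm')
        · rw [hv] at a; exact absurd a (Nat.not_even_iff_odd.2 hm')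
        · rcases a with a | ⟨a, _⟩ <;> omega
    · have hm' : Even m := by
        rcases Nat.even_or_odd m with h | h
        · exact h
        · exact absurd h.add_one (Nat.not_even_iff_odd.2 hm)
      have t1 : x + 3*d + -d = x + 2*d := by ring
      have t2 : x + 3*d + 2 * -d = x + d := by ring
      have t3 : x + 3*d + 3 * -d = x := by ring
      refine core hb hg (m := m) (R := fun u v => Lt g v u) (x := x + 3*d) (d := -d) ?_ ?_ ?_ ?_
        ?_ ?_ ?_ ?_ ?_ ?_ ?_ ?_
      · intro u v hu hv h
        rcases h with ⟨_, a⟩ | ⟨a, _, _⟩ | ⟨_, _, a⟩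
        · rw [hu] at a; exact absurd a (Nat.not_even_iff_odd.2 hm)
        · rw [hv] at a; exact absurd a (Nat.not_even_iff_odd.2 hm)
        · exact before_of (hu.trans hv.symm) a
      · intro u v hu hv h
        rcases h with ⟨a, _⟩ | ⟨_, _, a⟩ | ⟨a, _, _⟩
        · rw [hv] at a; exact absurd hm' (Nat.not_even_iff_odd.2 a)
        · exact before_of (hv.trans hu.symm) a
        · rw [hv] at a; exact absurd hm' (Nat.not_even_iff_odd.2 a)
      · intro u v hu hv h
        rcases h with ⟨_, a⟩ | ⟨_, a, _⟩ | ⟨_, _, a⟩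
        · rw [hu] at a; exact absurd a (Nat.not_even_iff_odd.2 hm)
        · rw [hu] at a; exact absurd a (Nat.not_even_iff_odd.2 hm)
        · rcases a with a | ⟨a, _⟩ <;> omega
      · intro u v hu hv h
        rcases h with ⟨a, _⟩ | ⟨_, _, a⟩ | ⟨a, _, _⟩
        · rw [hv] at a; exact absurd hm' (Nat.not_even_iff_odd.2 a)
        · rcases a with a | ⟨a, _⟩ <;> omega
        · rw [hv] at a; exact absurd hm' (Nat.not_even_iff_odd.2 a)
      · exact k3
      · rw [t1]; exact k2
      · rw [t2]; exact k1
      · rw [t3]; exact k0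
      · rw [t1, t2, t3]; tauto
      · rw [t1]; exact r3
      · rw [t1, t2]; exact r2
      · rw [t2, t3]; exact r1

end main

/-- There is a doubly infinite permutation of the integers without four terms in arithmetic
progression. -/
theorem main :
    ∃ f : ℤ → ℤ, Function.Bijective f ∧
      ∀ i j k l : ℤ, i < j → j < k → k < l →
        ¬ (f j - f i = f k - f j ∧ f k - f j = f l - f k) := by
  obtain ⟨b, hb⟩ := exists_radii
  obtain ⟨g, hg⟩ := exists_gen hb
  obtain ⟨f, hf, hlt⟩ := exists_enumeration (Lt g) (lt_irrefl' g) (lt_trans' g)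
    (fun x y h => lt_total' g x y h) (lt_interval_finite hg) (lt_no_max hb hg) (lt_no_min hb hg)
  refine ⟨f, hf, ?_⟩
  rintro i j k l hij hjk hkl ⟨e1, e2⟩
  have r1 := hlt i j hij
  have r2 := hlt j k hjk
  have r3 := hlt k l hkl
  have ej : f j = f i + (f j - f i) := by ring
  have ek : f k = f i + 2 * (f j - f i) := by linarith
  have el : f l = f i + 3 * (f j - f i) := by linarith
  generalize f j - f i = d at ej ek el
  rw [ej] at r1 r2
  rw [ek] at r2 r3
  rw [el] at r3
  exact no_four hb hg r1 r2 r3

end Pool.Agent.Lib.MP_b7b3bc_co
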