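import Mathlib

/-! The two-adic tree order on the integers in which, at every node, the child containing the
residue of smallest absolute value comes first. -/

namespace Pool.Agent.Lib.MP_b7b3bc_co

/-- At level `s` the integer `x` lies in the second child of its node: `x` is not congruent
modulo `2^(s+1)` to its own balanced residue modulo `2^s`. -/
def Sec (s : ℕ) (x : ℤ) : Prop := ¬ ((2:ℤ)^(s+1) ∣ x - Int.bmod x (2^s))

/-- The tree order: `x` comes before `y` when they agree modulo `2^s`, `x` lies in the first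
child and `y` in the second child at level `s`. -/
def Before (x y : ℤ) : Prop := ∃ s : ℕ, (2:ℤ)^s ∣ x - y ∧ ¬ Sec s x ∧ Sec s y

theorem bmod_congr {s : ℕ} {x y : ℤ} (h : (2:ℤ)^s ∣ x - y) :
    Int.bmod x (2^s) = Int.bmod y (2^s) := by
  have h1 : x % ((2^s : ℕ) : ℤ) = y % ((2^s : ℕ) : ℤ) := by
    apply Int.ModEq.symm
    rw [Int.modEq_iff_dvd]
    push_cast
    exact h
  rw [← Int.emod_bmod x, ← Int.emod_bmod y, h1]

theorem dvd_sub_bmod (s : ℕ) (x : ℤ) : (2:ℤ)^s ∣ x - Int.bmod x (2^s) := by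
  have h := Int.dvd_self_sub_bmod (x := x) (m := 2^s)
  push_cast at h
  exact h

theorem sec_congr {s : ℕ} {x y : ℤ} (h : (2:ℤ)^(s+1) ∣ x - y) : Sec s x ↔ Sec s y := by
  have h0 : (2:ℤ)^s ∣ x - y := dvd_trans (pow_dvd_pow _ (Nat.le_succ s)) h
  unfold Sec
  rw [bmod_congr h0]
  have e : x - Int.bmod y (2^s) = (x - y) + (y - Int.bmod y (2^s)) := by ring
  rw [e, dvd_add_right h]

/-- Two integers that agree modulo `2^s` but not modulo `2^(s+1)` lie in different children. -/
theorem sec_flip {s : ℕ} {x y : ℤ} (h : (2:ℤ)^s ∣ x - y) (h' : ¬ (2:ℤ)^(s+1) ∣ x - y) :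
    Sec s x ↔ ¬ Sec s y := by
  have hb := bmod_congr h
  obtain ⟨p, hp⟩ := dvd_sub_bmod s x
  obtain ⟨q, hq⟩ := dvd_sub_bmod s y
  have h2 : ((2:ℤ)^s) ≠ 0 := by positivity
  have key : ∀ t : ℤ, (2:ℤ)^(s+1) ∣ 2^s * t ↔ (2:ℤ) ∣ t := by
    intro t
    rw [pow_succ]
    exact mul_dvd_mul_iff_left h2
  have hxy : x - y = 2^s * (p - q) := by
    rw [hb] at hp
    linear_combination hp - hq
  unfold Sec
  rw [hp, hq, key, key]
  rw [hxy, key] at h'
  omega

theorem before_irrefl (x : ℤ) : ¬ Before x x := by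
  rintro ⟨s, _, h1, h2⟩
  exact h1 h2

theorem before_trans {x y z : ℤ} (h1 : Before x y) (h2 : Before y z) : Before x z := by
  obtain ⟨s, hs, hx, hy⟩ := h1
  obtain ⟨t, ht, hy', hz⟩ := h2
  rcases lt_trichotomy s t with h | h | h
  · refine ⟨s, ?_, hx, ?_⟩
    · have : (2:ℤ)^s ∣ y - z := dvd_trans (pow_dvd_pow _ h.le) ht
      have e : x - z = (x - y) + (y - z) := by ring
      rw [e]; exact dvd_add hs this
    · have : (2:ℤ)^(s+1) ∣ y - z := dvd_trans (pow_dvd_pow _ h) ht
      exact (sec_congr this).1 hy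
  · subst h; exact absurd hy hy'
  · refine ⟨t, ?_, ?_, hz⟩
    · have : (2:ℤ)^t ∣ x - y := dvd_trans (pow_dvd_pow _ h.le) hs
      have e : x - z = (x - y) + (y - z) := by ring
      rw [e]; exact dvd_add this ht
    · have : (2:ℤ)^(t+1) ∣ x - y := dvd_trans (pow_dvd_pow _ h) hs
      rw [sec_congr this]; exact hy'

/-- Distinct integers split at some level. -/
theorem exists_split {x y : ℤ} (h : x ≠ y) :
    ∃ s : ℕ, (2:ℤ)^s ∣ x - y ∧ ¬ (2:ℤ)^(s+1) ∣ x - y := by
  have h0 : x - y ≠ 0 := sub_ne_zero.2 h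
  have hf : FiniteMultiplicity (2:ℤ) (x - y) := by
    rw [Int.finiteMultiplicity_iff]
    exact ⟨by decide, h0⟩
  exact ⟨multiplicity 2 (x - y), pow_multiplicity_dvd _ _,
    hf.not_pow_dvd_of_multiplicity_lt (Nat.lt_succ_self _)⟩

theorem before_trichotomy {x y : ℤ} (h : x ≠ y) : Before x y ∨ Before y x := by
  obtain ⟨s, h1, h2⟩ := exists_split h
  have h3 := sec_flip h1 h2
  by_cases hx : Sec s x
  · right
    refine ⟨s, ?_, h3.1 hx, hx⟩
    rw [← dvd_neg]; simpa using h1
  · left
    refine ⟨s, h1, hx, ?_⟩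
    by_contra hy
    exact hx (h3.2 hy)

theorem before_asymm {x y : ℤ} (h1 : Before x y) : ¬ Before y x :=
  fun h2 => before_irrefl x (before_trans h1 h2)

/-- Reflecting the later integer in the earlier one. -/
theorem before_reflect_right {y z : ℤ} (h : Before y z) : Before y (2*y - z) := by
  obtain ⟨s, hs, hy, hz⟩ := h
  refine ⟨s, ?_, hy, ?_⟩
  · have e : y - (2*y - z) = -(y - z) := by ring
    rw [e, dvd_neg]; exact hs
  · have : (2:ℤ)^(s+1) ∣ (2*y - z) - z := by
      have e : (2*y - z) - z = (y - z) * 2 := by ring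
      rw [e, pow_succ]
      exact mul_dvd_mul hs (dvd_refl 2)
    rw [sec_congr this]; exact hz

/-- Reflecting the earlier integer in the later one. -/
theorem before_reflect_left {y z : ℤ} (h : Before y z) : Before (2*z - y) z := by
  obtain ⟨s, hs, hy, hz⟩ := h
  refine ⟨s, ?_, ?_, hz⟩
  · have e : (2*z - y) - z = -(y - z) := by ring
    rw [e, dvd_neg]; exact hs
  · have : (2:ℤ)^(s+1) ∣ (2*z - y) - y := by
      have e : (2*z - y) - y = -((y - z) * 2) := by ring
      rw [e, pow_succ, dvd_neg]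
      exact mul_dvd_mul hs (dvd_refl 2)
    rw [sec_congr this]; exact hy

/-- An integer that is small compared with `2^s` lies in the first child at level `s`. -/
theorem not_sec_of_small {s : ℕ} {z A : ℤ} (hz : |z| ≤ A) (hA : 2 * A < 2^s) : ¬ Sec s z := by
  unfold Sec
  rw [not_not]
  have hz' := abs_le.1 hz
  have hb : Int.bmod z (2^s) = z := by
    apply Int.bmod_eq_of_le_mul_two
    · push_cast; linarith
    · push_cast; linarith
  rw [hb, sub_self]
  exact dvd_zero _

/-- The number whose binary digits are the child flags at the levels below `N`, the flag at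
level `0` being the most significant one. -/
noncomputable def rank (x : ℤ) : ℕ → ℕ
  | 0 => 0
  | (N+1) => 2 * rank x N + (open Classical in if Sec N x then 1 else 0)

theorem rank_lt_pow (x : ℤ) (N : ℕ) : rank x N < 2^N := by
  induction N with
  | zero => simp [rank]
  | succ N ih =>
    rw [rank, pow_succ]
    split_ifs <;> omega

theorem rank_eq {x y : ℤ} {s : ℕ} (h : (2:ℤ)^s ∣ x - y) : ∀ N, N ≤ s → rank x N = rank y N := by
  intro N
  induction N with
  | zero => intro _; rfl
  | succ N ih =>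
    intro hN
    have h1 : (2:ℤ)^(N+1) ∣ x - y := dvd_trans (pow_dvd_pow _ hN) h
    rw [rank, rank, ih (by omega)]
    have h2 := sec_congr h1
    by_cases hx : Sec N x
    · rw [if_pos hx, if_pos (h2.1 hx)]
    · rw [if_neg hx, if_neg (fun hy => hx (h2.2 hy))]

theorem rank_lt {x y : ℤ} {s : ℕ} (h : (2:ℤ)^s ∣ x - y) (hx : ¬ Sec s x) (hy : Sec s y) :
    ∀ N, s < N → rank x N < rank y N := by
  intro N
  induction N with
  | zero => intro h; omega
  | succ N ih =>
    intro hN
    rcases Nat.lt_or_ge s N with h1 | h1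
    · have := ih h1
      rw [rank, rank]
      split_ifs <;> omega
    · have hs : s = N := by omega
      subst hs
      rw [rank, rank, if_neg hx, if_pos hy, rank_eq h s le_rfl]
      omega

/-- The cascade step strictly increases the rank. -/
theorem rank_step {y z A : ℤ} {N : ℕ} (hz : |z| ≤ A) (hA : 2 * A < 2^N) (h : Before y z) :
    rank y N < rank (3*z - 2*y) N := by
  obtain ⟨s, hs, hy, hz'⟩ := h
  have hsN : s < N := by
    by_contra hc
    push Not at hc
    refine not_sec_of_small hz ?_ hz'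
    exact lt_of_lt_of_le hA (pow_le_pow_right₀ (by norm_num) hc)
  refine rank_lt (s := s) ?_ hy ?_ N hsN
  · have e : y - (3*z - 2*y) = 3 * (y - z) := by ring
    rw [e]; exact dvd_mul_of_dvd_right hs 3
  · have : (2:ℤ)^(s+1) ∣ (3*z - 2*y) - z := by
      have e : (3*z - 2*y) - z = -((y - z) * 2) := by ring
      rw [e, pow_succ, dvd_neg]
      exact mul_dvd_mul hs (dvd_refl 2)
    rw [sec_congr this]; exact hz'

end Pool.Agent.Lib.MP_b7b3bc_co
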